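import Pool.Agent.H657R3.SB12

/-!
# MP_eabe7c_an : full support of energy measures of harmonic functions on the Sierpinski carpet
-/

set_option autoImplicit false

open Set Topology MeasureTheory

namespace Pool.Agent.Results.MP_eabe7c_an.ExceptionalSet

open Pool.Agent.H657R3.SC

/-- The functions harmonic off the outer boundary whose energy measure does not have full support
form a countable union of closed linear subspaces of infinite codimension. -/
theorem result (F : Set Fn) (E : Fn → Fn → ℝ) (μ : Measure Carpet)
    (hμ : IsSelfSimilarMeasure μ) (hF : CanonicalForm F E μ) :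
    ∃ L : ℕ → Set Fn, (∀ n, IsThinSubspace F E (L n)) ∧
      ∀ h, IsHarmonic F E h → (HasFullSupport F E h ↔ ∀ n, h ∉ L n) :=
  exc_thin hμ hF

end Pool.Agent.Results.MP_eabe7c_an.ExceptionalSet
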