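import Pool.Agent.H657R3.SD12

/-!
# MP_eabe7c_an : full support of energy measures of harmonic functions on the Sierpinski carpet
-/

set_option autoImplicit false

open Set Topology MeasureTheory

namespace Pool.Agent.Results.MP_eabe7c_an.TameUCP

open Pool.Agent.H657R3.SC

/-- The energy measure of a nonconstant function `h` that is harmonic off a subset `B` of the outer
boundary has full support as soon as, for every level `c`, the function `h - c` has only finitely
many sign changes on `B`. -/
theorem result (F : Set Fn) (E : Fn → Fn → ℝ) (μ : Measure Carpet)
    (hμ : IsSelfSimilarMeasure μ) (hF : CanonicalForm F E μ) (B : Set Carpet)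
    (hB : B ⊆ OuterBoundary) (h : Fn) (hh : IsHarmonicOff F E B h) (hnc : ∃ x y, h x ≠ h y)
    (ht : ∀ c, FewSignChanges B h c) : HasFullSupport F E h :=
  full_of_few hμ hF hB hh hnc ht

end Pool.Agent.Results.MP_eabe7c_an.TameUCP
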